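import Mathlib

/-!
# The graph of polytopes with insertion and deletion moves
-/

set_option autoImplicit false

open MeasureTheory

namespace Pool.Agent.X156.PM

/-- Euclidean space `ℝ^d`. -/
abbrev E (d : ℕ) : Type := EuclideanSpace ℝ (Fin d)

/-- `P` is a full-dimensional polytope in `ℝ^d`. -/
def IsPoly {d : ℕ} (P : Set (E d)) : Prop :=
  (∃ S : Set (E d), S.Finite ∧ P = convexHull ℝ S) ∧ (interior P).Nonempty

/-- `Q` is obtained from `P` by inserting a point `x`: `Q = conv (P ∪ {x})` and the vertex set of
`Q` is exactly the vertex set of `P` together with `x`. -/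
def IsInsertion {d : ℕ} (P Q : Set (E d)) : Prop :=
  ∃ x : E d, Q = convexHull ℝ (insert x P) ∧
    Q.extremePoints ℝ = insert x (P.extremePoints ℝ)

/-- The graph `Γ_I(d)`: its vertices are the full-dimensional polytopes in `ℝ^d` with volume in `I`,
and two different ones are adjacent if one is obtained from the other by an insertion. -/
def Gam (d : ℕ) (I : Set ℝ) :
    SimpleGraph {P : Set (E d) // IsPoly P ∧ (volume P).toReal ∈ I} where
  Adj P Q := P ≠ Q ∧ (IsInsertion P.1 Q.1 ∨ IsInsertion Q.1 P.1)
  symm := ⟨fun _ _ h => ⟨h.1.symm, h.2.symm⟩⟩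
  loopless := ⟨fun _ h => h.1 rfl⟩

end Pool.Agent.X156.PM
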