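import Pool.Agent.X156.PM.Defs

/-!
# Simplices of the greatest volume are isolated
-/

set_option autoImplicit false

open MeasureTheory Module
open scoped Pointwise

namespace Pool.Agent.X156.PM

variable {d : ℕ}

theorem IsPoly.isCompact {P : Set (E d)} (h : IsPoly P) : IsCompact P := by
  obtain ⟨⟨S, hS, rfl⟩, _⟩ := h
  exact hS.isCompact_convexHull (𝕜 := ℝ)

theorem IsPoly.convex {P : Set (E d)} (h : IsPoly P) : Convex ℝ P := by
  obtain ⟨⟨S, hS, rfl⟩, _⟩ := h
  exact convex_convexHull ℝ _

theorem IsPoly.finite_extreme {P : Set (E d)} (h : IsPoly P) : (P.extremePoints ℝ).Finite := by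
  obtain ⟨⟨S, hS, rfl⟩, _⟩ := h
  exact hS.subset extremePoints_convexHull_subset

theorem IsPoly.eq_hull {P : Set (E d)} (h : IsPoly P) :
    P = convexHull ℝ (P.extremePoints ℝ) := by
  have h1 := closure_convexHull_extremePoints h.isCompact h.convex
  rw [(h.finite_extreme.isCompact_convexHull (𝕜 := ℝ)).isClosed.closure_eq] at h1
  exact h1.symm

/-- A full-dimensional polytope has at least `d + 1` vertices. -/
theorem IsPoly.card_le {P : Set (E d)} (h : IsPoly P) :
    d + 1 ≤ (P.extremePoints ℝ).ncard := by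
  have hfin := h.finite_extreme
  have hint : (interior (convexHull ℝ (P.extremePoints ℝ))).Nonempty := by
    rw [← h.eq_hull]
    exact h.2
  have htop : affineSpan ℝ (P.extremePoints ℝ) = ⊤ :=
    affineSpan_eq_top_of_nonempty_interior hint
  have hne : (P.extremePoints ℝ).Nonempty :=
    h.isCompact.extremePoints_nonempty (h.2.mono interior_subset)
  have : Fintype (P.extremePoints ℝ) := hfin.fintype
  have : Nonempty (P.extremePoints ℝ) := hne.to_subtype
  have h1 := finrank_vectorSpan_range_add_one_le ℝ (Subtype.val : P.extremePoints ℝ → E d)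
  rw [Subtype.range_coe, ← direction_affineSpan, htop, AffineSubspace.direction_top,
    finrank_top, finrank_euclideanSpace_fin] at h1
  rwa [Set.ncard_eq_toFinset_card', Set.toFinset_card]

/-- Adding a point outside of a full-dimensional polytope increases the volume. -/
theorem volume_lt {P : Set (E d)} (h : IsPoly P) {x : E d} (hx : x ∉ P) :
    (volume P).toReal < (volume (convexHull ℝ (insert x P))).toReal := by
  set Q := convexHull ℝ (insert x P) with hQ
  have hPQ : P ⊆ Q := (Set.subset_insert x P).trans (subset_convexHull ℝ _)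
  have hxQ : x ∈ Q := subset_convexHull ℝ _ (Set.mem_insert x P)
  have hQc : Convex ℝ Q := convex_convexHull ℝ _
  have hQcomp : IsCompact Q := by
    obtain ⟨⟨S, hS, hSP⟩, _⟩ := h
    have h1 : Q = convexHull ℝ ({x} ∪ S) := by
      rw [hQ, hSP, Set.insert_eq, convexHull_convexHull_union_right]
    rw [h1]
    exact ((Set.finite_singleton x).union hS).isCompact_convexHull (𝕜 := ℝ)
  obtain ⟨c, hc⟩ := h.2
  have hcQ : c ∈ interior Q := interior_mono hPQ hc
  -- a point of the interior of `Q` outside of `P`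
  have hopen : IsOpen (Pᶜ : Set (E d)) := h.isCompact.isClosed.isOpen_compl
  have hcl : x ∈ closure (interior Q) := by
    rw [hQc.closure_interior_eq_closure_of_nonempty_interior ⟨c, hcQ⟩]
    exact subset_closure hxQ
  obtain ⟨y, hy1, hy2⟩ := mem_closure_iff.1 hcl _ hopen hx
  have hpos : 0 < volume (Pᶜ ∩ interior Q) :=
    (hopen.inter isOpen_interior).measure_pos _ ⟨y, hy1, hy2⟩
  have hfinP : volume P ≠ ⊤ := h.isCompact.measure_lt_top.ne
  have hfinQ : volume Q ≠ ⊤ := hQcomp.measure_lt_top.ne
  rw [ENNReal.toReal_lt_toReal hfinP hfinQ]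
  calc volume P < volume P + volume (Pᶜ ∩ interior Q) := ENNReal.lt_add_right hfinP hpos.ne'
    _ = volume (P ∪ (Pᶜ ∩ interior Q)) := by
        rw [measure_union _ (hopen.measurableSet.inter isOpen_interior.measurableSet)]
        exact Set.disjoint_left.2 fun z hz hz' => hz'.1 hz
    _ ≤ volume Q := measure_mono (Set.union_subset hPQ (Set.inter_subset_right.trans
        interior_subset))

/-- A polytope with `d + 1` vertices whose volume is the greatest element of `I` is an isolated
vertex of the graph. -/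
theorem isolated {I : Set ℝ} {b : ℝ} (hb : IsGreatest I b)
    (P : {P : Set (E d) // IsPoly P ∧ (volume P).toReal ∈ I})
    (hcard : (P.1.extremePoints ℝ).ncard ≤ d + 1) (hvol : (volume P.1).toReal = b)
    (Q : {P : Set (E d) // IsPoly P ∧ (volume P).toReal ∈ I}) : ¬ (Gam d I).Adj P Q := by
  rintro ⟨hne, ⟨x, hx, hxe⟩ | ⟨x, hx, hxe⟩⟩
  · -- insertion in `P`
    have hxP : x ∉ P.1 := by
      intro hxP
      apply hne
      apply Subtype.ext
      rw [hx, Set.insert_eq_of_mem hxP, P.2.1.convex.convexHull_eq]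
    have h1 := volume_lt P.2.1 hxP
    rw [← hx, hvol] at h1
    have h2 := hb.2 Q.2.2
    linarith
  · -- deletion
    have hfin := P.2.1.finite_extreme
    have hfinQ := Q.2.1.finite_extreme
    by_cases hxQ : x ∈ Q.1.extremePoints ℝ
    · apply hne
      apply Subtype.ext
      rw [P.2.1.eq_hull, Q.2.1.eq_hull, hxe, Set.insert_eq_of_mem hxQ]
    · have h1 := Set.ncard_insert_of_notMem hxQ hfinQ
      rw [← hxe] at h1
      have h2 := Q.2.1.card_le
      omega

/-- There are a simplex of any given volume, and a different translate of it. -/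
theorem exists_simplices (hd : 1 ≤ d) {b : ℝ} (hb : 0 < b) :
    ∃ P Q : Set (E d), IsPoly P ∧ IsPoly Q ∧ P ≠ Q ∧ (volume P).toReal = b ∧
      (volume Q).toReal = b ∧ (P.extremePoints ℝ).ncard ≤ d + 1 := by
  obtain ⟨B⟩ : Nonempty (AffineBasis (Fin (d + 1)) ℝ (E d)) :=
    AffineBasis.exists_affineBasis_of_finiteDimensional (by simp)
  set P0 := convexHull ℝ (Set.range B) with hP0
  have hint0 : (interior P0).Nonempty := by
    rw [hP0, interior_convexHull_nonempty_iff_affineSpan_eq_top]
    exact B.tot
  have hcomp0 : IsCompact P0 := (Set.finite_range _).isCompact_convexHull (𝕜 := ℝ)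
  have hv0 : 0 < (volume P0).toReal :=
    ENNReal.toReal_pos (Measure.measure_pos_of_nonempty_interior _ hint0).ne' hcomp0.measure_lt_top.ne
  set c : ℝ := (b / (volume P0).toReal) ^ ((d : ℝ)⁻¹) with hc
  have hcpos : 0 < c := Real.rpow_pos_of_pos (by positivity) _
  have hcd : c ^ d = b / (volume P0).toReal :=
    Real.rpow_inv_natCast_pow (by positivity) (by omega)
  set P := convexHull ℝ (c • Set.range B) with hP
  have hPs : P = c • P0 := by rw [hP, hP0, convexHull_smul]
  have hvolP : (volume P).toReal = b := by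
    rw [hPs, Measure.addHaar_smul, ENNReal.toReal_mul, ENNReal.toReal_ofReal (abs_nonneg _),
      finrank_euclideanSpace_fin, abs_of_pos (by positivity), hcd]
    field_simp
  have hPpoly : IsPoly P := by
    refine ⟨⟨_, (Set.finite_range B).smul_set, rfl⟩, ?_⟩
    rw [hPs, interior_smul₀ hcpos.ne']
    exact hint0.smul_set
  -- the translate
  let w : E d := EuclideanSpace.single ⟨0, by omega⟩ 1
  have hw : w ≠ 0 := by
    intro h
    have := congrArg (fun v : E d => v ⟨0, by omega⟩) h
    simp [w] at this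
  have hQ : convexHull ℝ (w +ᵥ (c • Set.range B)) = w +ᵥ P := by rw [hP, convexHull_vadd]
  refine ⟨P, convexHull ℝ (w +ᵥ (c • Set.range B)), hPpoly,
    ⟨⟨_, (Set.finite_range B).smul_set.vadd_set, rfl⟩, ?_⟩, ?_, hvolP, ?_, ?_⟩
  · rw [hQ, interior_vadd]
    exact hPpoly.2.vadd_set
  · rw [hQ]
    intro h
    obtain ⟨y, hy, hmax⟩ := hPpoly.isCompact.exists_isMaxOn (hPpoly.2.mono interior_subset)
      (f := fun z : E d => inner ℝ w z) (by fun_prop)
    have h1 : w + y ∈ P := by
      rw [h]
      exact ⟨y, hy, rfl⟩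
    have h2 : inner ℝ w (w + y) ≤ inner ℝ w y := hmax h1
    rw [inner_add_right, real_inner_self_eq_norm_sq] at h2
    have : 0 < ‖w‖ ^ 2 := by positivity
    linarith
  · rw [hQ, measure_vadd, hvolP]
  · calc (P.extremePoints ℝ).ncard ≤ (c • Set.range B).ncard :=
          Set.ncard_le_ncard extremePoints_convexHull_subset (Set.finite_range B).smul_set
      _ ≤ (Set.range B).ncard := Set.ncard_image_le (Set.finite_range B)
      _ ≤ d + 1 := by
          rw [← Set.image_univ]
          refine (Set.ncard_image_le Set.finite_univ).trans ?_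
          rw [Set.ncard_univ, Nat.card_eq_fintype_card, Fintype.card_fin]

/-- If `I` has a greatest element then `Γ_I(d)` is not connected. -/
theorem not_connected_of_isGreatest (hd : 1 ≤ d) {I : Set ℝ} {b : ℝ} (hb : IsGreatest I b)
    (hb0 : 0 < b) : ¬ (Gam d I).Preconnected := by
  intro hcon
  obtain ⟨P, Q, hP, hQ, hne, hvP, hvQ, hcard⟩ := exists_simplices hd hb0
  let P' : {P : Set (E d) // IsPoly P ∧ (volume P).toReal ∈ I} := ⟨P, hP, hvP ▸ hb.1⟩
  let Q' : {P : Set (E d) // IsPoly P ∧ (volume P).toReal ∈ I} := ⟨Q, hQ, hvQ ▸ hb.1⟩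
  obtain ⟨p⟩ := hcon P' Q'
  have hne' : P' ≠ Q' := fun h => hne (congrArg Subtype.val h)
  exact isolated hb P' hcard hvP _ (p.adj_snd (SimpleGraph.Walk.not_nil_of_ne hne'))

end Pool.Agent.X156.PM
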